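import Pool.Agent.H28.RC.Targets2

/-!
# Module ROU: linear relations between roots of unity
-/

set_option autoImplicit false

open Polynomial

namespace Pool.Agent.H35.RC

open Pool.Agent.H28.RC

theorem pf_ROU : T_ROU := by
  intro M a hM ha ι _ c z hz h0
  have hM0 : 0 < M := hM
  set ζ : ℂ := Complex.exp (2 * Real.pi * Complex.I / M) with hζd
  have hζ : IsPrimitiveRoot ζ M := Complex.isPrimitiveRoot_exp M hM0.ne'
  have : NeZero M := ⟨hM0.ne'⟩
  have hb : ∀ i, ∃ b : ℕ, ζ ^ b = z i := fun i => by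
    obtain ⟨b, -, hb⟩ := hζ.eq_pow_of_pow_eq_one (hz i)
    exact ⟨b, hb⟩
  choose b hb using hb
  set Q : ℚ[X] := ∑ i, C (c i) * X ^ b i with hQ
  have hev : ∀ w : ℂ, aeval w Q = ∑ i, (c i : ℂ) * w ^ b i := by
    intro w
    rw [hQ]
    simp
  have h1 : aeval ζ Q = 0 := by
    rw [hev]
    simp only [hb]
    exact h0
  have h2 : minpoly ℚ ζ ∣ Q := minpoly.dvd _ _ h1
  have hζa : IsPrimitiveRoot (ζ ^ a) M := hζ.pow_of_coprime a ha
  rw [← cyclotomic_eq_minpoly_rat hζ hM0, cyclotomic_eq_minpoly_rat hζa hM0] at h2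
  have h3 : aeval (ζ ^ a) Q = 0 := by
    obtain ⟨R, hR⟩ := h2
    rw [hR, map_mul, minpoly.aeval, zero_mul]
  rw [hev] at h3
  rw [← h3]
  refine Finset.sum_congr rfl fun i _ => ?_
  rw [← hb i, ← pow_mul, ← pow_mul, mul_comm (b i) a]

end Pool.Agent.H35.RC
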